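import Mathlib

/-!
Rational maps of the projective line over a function field, given by a pair of binary forms:
potentially good reduction at a place, and isotriviality.
-/

set_option autoImplicit false

namespace Pool.Agent.Helper55.RM

/-- A place of the field extension `L/k`: a surjective (normalised) discrete valuation of `L`
with values in `ℤ ∪ {∞}` (written multiplicatively), trivial on `k`. -/
structure Place (k L : Type) [Field k] [Field L] [Algebra k L] where
  /-- the valuation -/
  val : Valuation L (WithZero (Multiplicative ℤ))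
  surj : Function.Surjective val
  triv : ∀ a : k, a ≠ 0 → val (algebraMap k L a) = 1

/-- The map `x ↦ (Φ₀(x), Φ₁(x))` given by a pair of polynomials in two variables. -/
noncomputable def lift {L : Type} [Field L] (Φ : Fin 2 → MvPolynomial (Fin 2) L) (x : Fin 2 → L) : Fin 2 → L :=
  fun i => MvPolynomial.eval x (Φ i)

/-- Extension of scalars. -/
noncomputable def ext {L : Type} [Field L] (L₁ : Type) [Field L₁] [Algebra L L₁]
    (Φ : Fin 2 → MvPolynomial (Fin 2) L) : Fin 2 → MvPolynomial (Fin 2) L₁ :=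
  fun i => MvPolynomial.map (algebraMap L L₁) (Φ i)

/-- `Φ` defines a rational map `ℙ¹ → ℙ¹` of degree `d`: it consists of two forms of degree `d`
without a common zero in `ℙ¹` over the algebraic closure. -/
def IsRat {L : Type} [Field L] (d : ℕ) (Φ : Fin 2 → MvPolynomial (Fin 2) L) : Prop :=
  (∀ i, (Φ i).IsHomogeneous d) ∧
    ∀ x : Fin 2 → AlgebraicClosure L, lift (ext (AlgebraicClosure L) Φ) x = 0 → x = 0

/-- The resultant of a pair of forms of degree `d` (as forms of degree `d`, whatever the degree of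
the dehomogenised polynomials). -/
noncomputable def res {L : Type} [Field L] (d : ℕ) (Φ : Fin 2 → MvPolynomial (Fin 2) L) : L :=
  Polynomial.resultant (MvPolynomial.aeval ![Polynomial.X, 1] (Φ 0))
    (MvPolynomial.aeval ![Polynomial.X, 1] (Φ 1)) d d

/-- `Φ ∘ A = A ∘ Ψ` up to a nonzero scalar, for an invertible matrix `A`. -/
def Conj {L : Type} [Field L] (A : Matrix (Fin 2) (Fin 2) L)
    (Φ Ψ : Fin 2 → MvPolynomial (Fin 2) L) : Prop :=
  A.det ≠ 0 ∧ ∃ c : L, c ≠ 0 ∧ ∀ x, lift Φ (A.mulVec x) = c • A.mulVec (lift Ψ x)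

/-- `Φ` has potentially good reduction at the place `v` of `L/k`: for some finite extension `L₁` of
`L` and some place `w` of `L₁` above `v`, the map is conjugate over `L₁` to a pair of forms of degree
`d` with `w`-integral coefficients whose resultant is a `w`-unit. -/
def PotGood {k L : Type} [Field k] [Field L] [Algebra k L] (v : Place k L) (d : ℕ)
    (Φ : Fin 2 → MvPolynomial (Fin 2) L) : Prop :=
  ∃ (L₁ : Type) (_ : Field L₁) (_ : Algebra k L₁) (_ : Algebra L L₁) (_ : IsScalarTower k L L₁)
    (_ : FiniteDimensional L L₁) (w : Place k L₁) (A : Matrix (Fin 2) (Fin 2) L₁)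
    (Ψ : Fin 2 → MvPolynomial (Fin 2) L₁),
    (∀ x : L, w.val (algebraMap L L₁ x) ≤ 1 ↔ v.val x ≤ 1) ∧ Conj A (ext L₁ Φ) Ψ ∧
    (∀ i, (Ψ i).IsHomogeneous d) ∧ (∀ i m, w.val ((Ψ i).coeff m) ≤ 1) ∧ w.val (res d Ψ) = 1

/-- `Φ` is isotrivial: over the algebraic closure it is conjugate to a pair of forms of degree `d`
with coefficients algebraic over the constant field `k`. -/
def Isotrivial (k : Type) {L : Type} [Field k] [Field L] [Algebra k L] (d : ℕ)
    (Φ : Fin 2 → MvPolynomial (Fin 2) L) : Prop :=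
  ∃ (A : Matrix (Fin 2) (Fin 2) (AlgebraicClosure L))
    (Ψ : Fin 2 → MvPolynomial (Fin 2) (AlgebraicClosure L)),
    Conj A (ext (AlgebraicClosure L) Φ) Ψ ∧ (∀ i, (Ψ i).IsHomogeneous d) ∧
    ∀ i m, IsAlgebraic k ((Ψ i).coeff m)

/-- The preperiodic points in `ℙ¹(L)` of the rational map given by `Φ`. -/
def prePer {L : Type} [Field L] (Φ : Fin 2 → MvPolynomial (Fin 2) L) :
    Set (Projectivization L (Fin 2 → L)) :=
  {p | ∃ m n : ℕ, m < n ∧ ∃ c : L, c ≠ 0 ∧ (lift Φ)^[n] p.rep = c • (lift Φ)^[m] p.rep}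

end Pool.Agent.Helper55.RM
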