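import Mathlib
import Pool.Agent.Helper55.RD.LC
import Pool.Agent.Helper55.RM.Defs

/-!
Pairs of homogeneous polynomials in two variables and the dehomogenised polynomials.
-/

set_option autoImplicit false

open Polynomial Finset Pool.Agent.Helper33 Pool.Agent.Helper55.RD

namespace Pool.Agent.Helper55.RM

section deh

variable {L : Type} [Field L]

/-- dehomogenisation -/
noncomputable def deh (P : MvPolynomial (Fin 2) L) : L[X] := MvPolynomial.aeval ![X, 1] P

lemma deh_eq_sum (P : MvPolynomial (Fin 2) L) :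
    deh P = ∑ m ∈ P.support, C (P.coeff m) * X ^ (m 0) := by
  rw [deh, MvPolynomial.aeval_def, MvPolynomial.eval₂_eq']
  refine sum_congr rfl fun m _ => ?_
  simp [Fin.prod_univ_two]

lemma natDegree_deh {P : MvPolynomial (Fin 2) L} {d : ℕ} (hP : P.IsHomogeneous d) :
    (deh P).natDegree ≤ d := by
  rw [deh_eq_sum]
  refine natDegree_sum_le_of_forall_le _ _ fun m hm => ?_
  refine (natDegree_C_mul_X_pow_le _ _).trans ?_
  have h1 := hP (MvPolynomial.mem_support_iff.1 hm)
  rw [Finsupp.weight_apply, Finsupp.sum_fintype _ _ (by simp)] at h1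
  simp [Fin.sum_univ_two] at h1
  omega

lemma hom_deh {P : MvPolynomial (Fin 2) L} {d : ℕ} (hP : P.IsHomogeneous d)
    {A : Type} [CommRing A] [Algebra L A] (a b : A) :
    hom d (deh P) a b = MvPolynomial.aeval ![a, b] P := by
  rw [hom_eq_aeval, homogenize_eq_of_isHomogeneous (p := deh P) hP rfl]

lemma deh_homogenize {f : L[X]} {d : ℕ} (hf : f.natDegree ≤ d) : deh (f.homogenize d) = f :=
  aeval_homogenize_X_one f hf

lemma eval_homogenize' (f : L[X]) (d : ℕ) (x : Fin 2 → L) :
    MvPolynomial.eval x (f.homogenize d) = hom d f (x 0) (x 1) := by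
  rw [hom_eq_aeval, MvPolynomial.aeval_eq_eval]
  congr 2
  funext i
  fin_cases i <;> rfl

lemma eval_eq_hom {P : MvPolynomial (Fin 2) L} {d : ℕ} (hP : P.IsHomogeneous d) (x : Fin 2 → L) :
    MvPolynomial.eval x P = hom d (deh P) (x 0) (x 1) := by
  rw [hom_deh hP, MvPolynomial.aeval_eq_eval]
  congr 2
  funext i
  fin_cases i <;> rfl

lemma deh_map {L₁ : Type} [Field L₁] (f : L →+* L₁) (P : MvPolynomial (Fin 2) L) :
    deh (MvPolynomial.map f P) = (deh P).map f := by
  induction P using MvPolynomial.induction_on with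
  | C a => simp [deh]
  | add p q hp hq =>
    simp only [deh, map_add, Polynomial.map_add] at hp hq ⊢
    rw [hp, hq]
  | mul_X p i hp =>
    simp only [deh, map_mul, MvPolynomial.map_X, MvPolynomial.aeval_X, Polynomial.map_mul] at hp ⊢
    rw [hp]
    fin_cases i <;> simp

end deh

end Pool.Agent.Helper55.RM
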