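import Mathlib
import Pool.Agent.Helper16.FF8
import Pool.Agent.Helper55.RD.ASys
import Pool.Agent.Helper55.RD.RatLB
import Pool.Agent.Helper55.RM.Form

/-!
The local theory at a place: potentially good reduction and the local lower bound.
-/

set_option autoImplicit false

open Polynomial Finset Pool.Agent.Helper33 Pool.Agent.Helper55.RD

namespace Pool.Agent.Helper55.RM

lemma o_zpow {K : Type*} [Field K] (v : DV K) {x : K} (hx : x ≠ 0) (n : ℤ) :
    v.o (x ^ n) = n * v.o x := by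
  obtain ⟨m, rfl | rfl⟩ := n.eq_nat_or_neg
  · rw [zpow_natCast, v.o_pow _ hx]
  · rw [zpow_neg, zpow_natCast, v.o_inv _ (pow_ne_zero _ hx), v.o_pow _ hx]
    ring

namespace Place

variable {k L : Type} [Field k] [Field L] [Algebra k L]

/-- conversion -/
def toP (v : Place k L) : Pool.Agent.Helper16.Place k L := ⟨v.val, v.surj, v.triv⟩

/-- conversion -/
def ofP (v : Pool.Agent.Helper16.Place k L) : Place k L := ⟨v.val, v.surj, v.triv⟩

/-- the discrete valuation of a place -/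
noncomputable def dv (v : Place k L) : DV L where
  o := v.toP.ord
  mul := fun x y hx hy => v.toP.ord_mul hx hy
  add := by
    intro x y hx hy hxy
    have h1 := v.val.map_add x y
    have hx0 : v.val x ≠ 0 := by simpa using hx
    have hy0 : v.val y ≠ 0 := by simpa using hy
    have hxy0 : v.val (x + y) ≠ 0 := by simpa using hxy
    simp only [Pool.Agent.Helper16.Place.ord, toP]
    rcases le_max_iff.1 h1 with h2 | h2
    · rw [← WithZero.log_le_log hxy0 hx0] at h2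
      exact min_le_of_left_le (by omega)
    · rw [← WithZero.log_le_log hxy0 hy0] at h2
      exact min_le_of_right_le (by omega)

lemma dv_eq_zero_iff (v : Place k L) {x : L} (hx : x ≠ 0) : v.dv.o x = 0 ↔ v.val x = 1 :=
  v.toP.ord_eq_zero_iff hx

lemma dv_nonneg_iff (v : Place k L) {x : L} (hx : x ≠ 0) : 0 ≤ v.dv.o x ↔ v.val x ≤ 1 :=
  v.toP.ord_nonneg_iff hx

lemma ge_zero_iff (v : Place k L) {x : L} : v.dv.ge 0 x ↔ v.val x ≤ 1 := by
  by_cases hx : x = 0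
  · subst hx
    simp [DV.ge]
  · rw [← v.dv_nonneg_iff hx, DV.ge]
    simp [hx]

lemma exists_ram {L₁ : Type} [Field L₁] [Algebra k L₁] [Algebra L L₁] (v : Place k L)
    (w : Place k L₁) (h : ∀ x : L, w.val (algebraMap L L₁ x) ≤ 1 ↔ v.val x ≤ 1) :
    ∃ e : ℤ, 0 < e ∧ ∀ x : L, x ≠ 0 → w.dv.o (algebraMap L L₁ x) = e * v.dv.o x := by
  obtain ⟨π, hπ0, hπ⟩ := v.toP.exists_uniformizer
  have hπ1 : v.dv.o π = 1 := by
    change -WithZero.log (v.val π) = 1
    have : v.val π = WithZero.exp (-1 : ℤ) := hπ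
    rw [this]
    simp
  have hinj := (algebraMap L L₁).injective
  have hmap : ∀ x : L, x ≠ 0 → algebraMap L L₁ x ≠ 0 := fun x hx => by simpa using hx
  have hunit : ∀ u : L, u ≠ 0 → v.dv.o u = 0 → w.dv.o (algebraMap L L₁ u) = 0 := by
    intro u hu h0
    have h1 : 0 ≤ w.dv.o (algebraMap L L₁ u) := by
      rw [w.dv_nonneg_iff (hmap u hu), h, ← v.dv_nonneg_iff hu, h0]
    have h2 : 0 ≤ w.dv.o (algebraMap L L₁ u⁻¹) := by
      rw [w.dv_nonneg_iff (hmap _ (inv_ne_zero hu)), h, ← v.dv_nonneg_iff (inv_ne_zero hu),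
        v.dv.o_inv _ hu, h0]
      simp
    rw [map_inv₀, w.dv.o_inv _ (hmap u hu)] at h2
    omega
  refine ⟨w.dv.o (algebraMap L L₁ π), ?_, ?_⟩
  · by_contra hcon
    have h1 : 0 ≤ w.dv.o (algebraMap L L₁ π⁻¹) := by
      rw [map_inv₀, w.dv.o_inv _ (hmap π hπ0)]
      omega
    rw [w.dv_nonneg_iff (hmap _ (inv_ne_zero hπ0)), h, ← v.dv_nonneg_iff (inv_ne_zero hπ0),
      v.dv.o_inv _ hπ0, hπ1] at h1
    omega
  · intro x hx
    have h1 : v.dv.o (x * π ^ (-(v.dv.o x))) = 0 := by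
      rw [v.dv.mul _ _ hx (zpow_ne_zero _ hπ0), o_zpow _ hπ0, hπ1]
      ring
    have h2 := hunit _ (mul_ne_zero hx (zpow_ne_zero _ hπ0)) h1
    rw [map_mul, map_zpow₀, w.dv.mul _ _ (hmap x hx) (zpow_ne_zero _ (hmap π hπ0)),
      o_zpow _ (hmap π hπ0)] at h2
    linarith

end Place

section

variable {k L : Type} [Field k] [Field L] [Algebra k L]

lemma intP_deh (v : Place k L) {P : MvPolynomial (Fin 2) L} (h : ∀ m, v.val (P.coeff m) ≤ 1) :
    IntP v.dv (deh P) := by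
  intro n
  rw [deh_eq_sum, finsetSum_coeff]
  refine DV.ge_sum _ _ fun m _ => ?_
  rw [coeff_C_mul, coeff_X_pow]
  split_ifs
  · rw [mul_one, v.ge_zero_iff]; exact h m
  · rw [mul_zero]; exact DV.ge_zero _

/-- the matrix as an `M2` -/
def toM2 (A : Matrix (Fin 2) (Fin 2) L) : M2 L := ⟨A 0 0, A 0 1, A 1 0, A 1 1⟩

lemma det_toM2 (A : Matrix (Fin 2) (Fin 2) L) : (toM2 A).det = A.det := by
  rw [Matrix.det_fin_two, toM2, M2.det]

lemma app_toM2 (A : Matrix (Fin 2) (Fin 2) L) (x : Fin 2 → L) :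
    (toM2 A).app (x 0, x 1) = ((A.mulVec x) 0, (A.mulVec x) 1) := by
  simp [toM2, M2.app, Matrix.mulVec, dotProduct, Fin.sum_univ_two]

lemma lift_zero {Φ : Fin 2 → MvPolynomial (Fin 2) L} {d : ℕ} (hΦ : ∀ i, (Φ i).IsHomogeneous d)
    (x : Fin 2 → L) : lift Φ x = ![hom d (deh (Φ 0)) (x 0) (x 1), hom d (deh (Φ 1)) (x 0) (x 1)] := by
  funext i
  fin_cases i
  · exact eval_eq_hom (hΦ 0) x
  · exact eval_eq_hom (hΦ 1) x

/-- a conjugate pair of forms in terms of `trF`, `trG` -/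
lemma conj_iff [Infinite L] {Φ Ψ : Fin 2 → MvPolynomial (Fin 2) L} {d : ℕ}
    (hΦ : ∀ i, (Φ i).IsHomogeneous d) (hΨ : ∀ i, (Ψ i).IsHomogeneous d)
    {A : Matrix (Fin 2) (Fin 2) L} (h : Conj A Φ Ψ) : ∃ κ : L, κ ≠ 0 ∧
      trF d (toM2 A) κ (deh (Φ 0)) (deh (Φ 1)) = deh (Ψ 0) ∧
      trG d (toM2 A) κ (deh (Φ 0)) (deh (Φ 1)) = deh (Ψ 1) := by
  obtain ⟨hA, c, hc, h⟩ := h
  have hdet : (toM2 A).det ≠ 0 := by rwa [det_toM2]
  have key : ∀ t : L,
      hom d (deh (Φ 0)) ((toM2 A).app (t, 1)).1 ((toM2 A).app (t, 1)).2 =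
        c * (A 0 0 * hom d (deh (Ψ 0)) t 1 + A 0 1 * hom d (deh (Ψ 1)) t 1) ∧
      hom d (deh (Φ 1)) ((toM2 A).app (t, 1)).1 ((toM2 A).app (t, 1)).2 =
        c * (A 1 0 * hom d (deh (Ψ 0)) t 1 + A 1 1 * hom d (deh (Ψ 1)) t 1) := by
    intro t
    have h1 := h ![t, 1]
    rw [lift_zero hΦ, lift_zero hΨ] at h1
    have h2 := app_toM2 A ![t, 1]
    simp only [Matrix.cons_val_zero, Matrix.cons_val_one] at h1 h2
    rw [h2]
    constructor
    · have := congrFun h1 0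
      simpa [Matrix.mulVec, dotProduct, Fin.sum_univ_two] using this
    · have := congrFun h1 1
      simpa [Matrix.mulVec, dotProduct, Fin.sum_univ_two] using this
  refine ⟨(c * (toM2 A).det)⁻¹, inv_ne_zero (mul_ne_zero hc hdet), ?_, ?_⟩
  · refine Polynomial.funext fun t => ?_
    rw [← hom_eval (natDegree_trF _ _), ← hom_eval (natDegree_deh (hΨ 0))]
    have h1 := hom_trF (toM2 A) (c * (toM2 A).det)⁻¹ (deh (Φ 0)) (deh (Φ 1)) (d := d) (t, 1)
    simp only at h1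
    rw [h1, (key t).1, (key t).2]
    have h3 : (toM2 A).e = A 1 1 := rfl
    have h4 : (toM2 A).b = A 0 1 := rfl
    have h5 : (toM2 A).det = A 0 0 * A 1 1 - A 0 1 * A 1 0 := rfl
    rw [h3, h4]
    rw [inv_mul_eq_iff_eq_mul₀ (mul_ne_zero hc hdet), h5]
    ring
  · refine Polynomial.funext fun t => ?_
    rw [← hom_eval (natDegree_trG _ _), ← hom_eval (natDegree_deh (hΨ 1))]
    have h1 := hom_trG (toM2 A) (c * (toM2 A).det)⁻¹ (deh (Φ 0)) (deh (Φ 1)) (d := d) (t, 1)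
    simp only at h1
    rw [h1, (key t).1, (key t).2]
    have h3 : (toM2 A).a = A 0 0 := rfl
    have h4 : (toM2 A).c = A 1 0 := rfl
    have h5 : (toM2 A).det = A 0 0 * A 1 1 - A 0 1 * A 1 0 := rfl
    rw [h3, h4]
    rw [inv_mul_eq_iff_eq_mul₀ (mul_ne_zero hc hdet), h5]
    ring

end

end Pool.Agent.Helper55.RM
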