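import Mathlib
import Pool.Agent.Helper55.RM.Loc

/-!
The two local theorems: at a place of potentially good reduction the local pairing of two
preperiodic points is nonnegative; a large set of preperiodic points with all local pairings
nonpositive forces potentially good reduction.
-/

set_option autoImplicit false

open Polynomial Finset Pool.Agent.Helper33 Pool.Agent.Helper55.RD

namespace Pool.Agent.Helper55.RM

variable {k L : Type} [Field k] [Field L] [Algebra k L]

/-- the pairing of integral points for a good model of good reduction -/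
lemma g_nonneg_of_good {K : Type*} [Field K] {v : DV K} {d : ℕ} (hd : 2 ≤ d) {ι : Type*} [Finite ι]
    {S : Sys v d ι} (hS : S.Good) (h0 : v.o (resultant S.F S.G d d) = 0) {i j : ι} (hij : i ≠ j) :
    0 ≤ S.g i j := by
  have hr : S.r = 0 := by rw [Sys.r, h0]; simp
  have hH : ∀ i, S.H i = 0 := by
    intro i
    have h1 := hS.H_nonneg hd i
    have h2 := hS.H_le hd i
    rw [hr, mul_zero] at h2
    exact le_antisymm h2 h1
  rw [Sys.g, hH, hH, hr, W_of_ne (S.hx i j hij)]
  have h1 := DV.ge_le (ge_wedge (hS.prim i) (hS.prim j)) (S.hx i j hij)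
  linarith

theorem z_nonneg_of_potGood [Infinite L] {ι : Type} [Finite ι] {d : ℕ} (hd : 2 ≤ d)
    {Φ : Fin 2 → MvPolynomial (Fin 2) L} (hΦ : ∀ i, (Φ i).IsHomogeneous d) (S : ASys L d ι)
    (hF : S.F = deh (Φ 0)) (hG : S.G = deh (Φ 1)) (v : Place k L) (hv : PotGood v d Φ) {i j : ι}
    (hij : i ≠ j) : 0 ≤ v.dv.o (S.z i j) := by
  obtain ⟨L₁, _, _, _, _, _, w, A, Ψ, hvw, hconj, hΨ, hint, hres⟩ := hv
  have : Infinite L₁ := Infinite.of_injective _ (algebraMap L L₁).injective
  have hext : ∀ i, (ext L₁ Φ i).IsHomogeneous d := fun i => (hΦ i).map _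
  obtain ⟨κ, hκ, h1, h2⟩ := conj_iff hext hΨ hconj
  obtain ⟨e, he, hram⟩ := v.exists_ram w hvw
  have e0 : deh (ext L₁ Φ 0) = (deh (Φ 0)).map (algebraMap L L₁) := deh_map _ _
  have e1 : deh (ext L₁ Φ 1) = (deh (Φ 1)).map (algebraMap L L₁) := deh_map _ _
  rw [e0, e1] at h1 h2
  set S₁ := S.map (algebraMap L L₁) with hS₁
  have hdet : (toM2 A).det ≠ 0 := by rw [det_toM2]; exact hconj.1
  obtain ⟨S', hF', hG', -, hprim, hg, -⟩ := (S₁.toSys hd w.dv).exists_tr hd (toM2 A) hdet κ hκ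
  have hFF : (S₁.toSys hd w.dv).F = (deh (Φ 0)).map (algebraMap L L₁) := by
    change S.F.map (algebraMap L L₁) = _
    rw [hF]
  have hGG : (S₁.toSys hd w.dv).G = (deh (Φ 1)).map (algebraMap L L₁) := by
    change S.G.map (algebraMap L L₁) = _
    rw [hG]
  rw [hFF, hGG, h1] at hF'
  rw [hFF, hGG, h2] at hG'
  have hgood : S'.Good :=
    ⟨by rw [hF']; exact intP_deh w (hint 0), by rw [hG']; exact intP_deh w (hint 1), hprim⟩
  have hres0 : resultant (deh (Ψ 0)) (deh (Ψ 1)) d d ≠ 0 := by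
    rw [← hF', ← hG']; exact S'.hR
  have h3 : w.dv.o (resultant S'.F S'.G d d) = 0 := by
    rw [hF', hG', w.dv_eq_zero_iff hres0]
    exact hres
  have h4 := g_nonneg_of_good hd hgood h3 hij
  rw [hg i j hij] at h4
  have h5 := S₁.o_z hd w.dv hij
  have h6 : S₁.z i j = algebraMap L L₁ (S.z i j) := ASys.map_z _ _ _ _
  rw [h6, hram _ (S.z_ne_zero hij)] at h5
  have h7 : (0 : ℝ) ≤ ((e * v.dv.o (S.z i j) : ℤ) : ℝ) := by
    rw [h5]
    exact mul_nonneg (S₁.M_pos hd).le h4
  have h8 : 0 ≤ e * v.dv.o (S.z i j) := by exact_mod_cast h7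
  exact nonneg_of_mul_nonneg_right h8 he

/-- the matrix of an `M2` -/
def ofM2 {K : Type} (N : M2 K) : Matrix (Fin 2) (Fin 2) K := !![N.a, N.b; N.c, N.e]

theorem potGood_of_clique {ι : Type} [Finite ι] {d : ℕ} (hd : 2 ≤ d)
    {Φ : Fin 2 → MvPolynomial (Fin 2) L} (hΦ : ∀ i, (Φ i).IsHomogeneous d) (S : ASys L d ι)
    (hF : S.F = deh (Φ 0)) (hG : S.G = deh (Φ 1)) (v : Place k L) (T : Finset ι)
    (hT : N₀ d ≤ T.card) (h : ∀ i ∈ T, ∀ j ∈ T, i ≠ j → v.dv.o (S.z i j) ≤ 0) :
    PotGood v d Φ := by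
  classical
  obtain ⟨N, κ, S₀, hN, hκ, hF₀, hG₀, hgood, hg, -, hlb⟩ := (S.toSys hd v.dv).exists_min_model hd
  obtain ⟨i, hi, j, hj, hij, hlt⟩ := hlb T hT
  have h1 : S₀.g i j ≤ 0 := by
    rw [hg i j hij]
    have h2 := S.o_z hd v.dv hij
    have h3 : (v.dv.o (S.z i j) : ℝ) ≤ 0 := by exact_mod_cast h i hi j hj hij
    rw [h2] at h3
    have h4 := S.M_pos hd
    by_contra hcon
    rw [not_le] at hcon
    have := mul_pos h4 hcon
    linarith
  have h2 : S₀.r = 0 := by
    refine le_antisymm ?_ (hgood.r_nonneg hd)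
    have h3 := ep_pos hd
    by_contra hcon
    rw [not_le] at hcon
    have := mul_pos h3 hcon
    linarith
  have h3 : v.dv.o (resultant S₀.F S₀.G d d) = 0 := by
    have h4 := S₀.o_res hd
    rw [h2, mul_zero] at h4
    exact_mod_cast h4
  have hFF : (S.toSys hd v.dv).F = deh (Φ 0) := hF
  have hGG : (S.toSys hd v.dv).G = deh (Φ 1) := hG
  rw [hFF, hGG] at hF₀ hG₀
  have hdet : (ofM2 N).det = N.det := by
    rw [ofM2, Matrix.det_fin_two_of, M2.det]
  refine ⟨L, inferInstance, inferInstance, inferInstance, inferInstance, inferInstance, v, ofM2 N,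
    ![S₀.F.homogenize d, S₀.G.homogenize d], fun x => Iff.rfl, ⟨?_, (κ * N.det)⁻¹,
    inv_ne_zero (mul_ne_zero hκ hN), ?_⟩, ?_, ?_, ?_⟩
  · rw [hdet]; exact hN
  · intro x
    have e0 : ext L Φ = Φ := by
      funext i
      exact MvPolynomial.map_id _
    rw [e0, lift_zero hΦ]
    have e1 : ((ofM2 N).mulVec x) 0 = (N.app (x 0, x 1)).1 := by
      simp [ofM2, M2.app, Matrix.mulVec, dotProduct, Fin.sum_univ_two]
    have e2 : ((ofM2 N).mulVec x) 1 = (N.app (x 0, x 1)).2 := by
      simp [ofM2, M2.app, Matrix.mulVec, dotProduct, Fin.sum_univ_two]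
    have e3 := hom_trF N κ (deh (Φ 0)) (deh (Φ 1)) (d := d) (x 0, x 1)
    have e4 := hom_trG N κ (deh (Φ 0)) (deh (Φ 1)) (d := d) (x 0, x 1)
    simp only at e3 e4
    rw [e1, e2]
    have hd0 : N.det = N.a * N.e - N.b * N.c := rfl
    have hne : κ * N.det ≠ 0 := mul_ne_zero hκ hN
    funext i
    fin_cases i
    · simp only [Fin.zero_eta, Matrix.cons_val_zero, lift, Pi.smul_apply, smul_eq_mul, ofM2,
        Matrix.mulVec, dotProduct, Fin.sum_univ_two, Matrix.of_apply, Matrix.cons_val_one,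
        Matrix.cons_val', eval_homogenize']
      rw [hF₀, hG₀, e3, e4, eq_inv_mul_iff_mul_eq₀ hne, hd0]
      ring
    · simp only [Fin.mk_one, Matrix.cons_val_zero, lift, Pi.smul_apply, smul_eq_mul, ofM2,
        Matrix.mulVec, dotProduct, Fin.sum_univ_two, Matrix.of_apply, Matrix.cons_val_one,
        Matrix.cons_val', eval_homogenize']
      rw [hF₀, hG₀, e3, e4, eq_inv_mul_iff_mul_eq₀ hne, hd0]
      ring
  · intro i
    fin_cases i
    · exact isHomogeneous_homogenize _
    · exact isHomogeneous_homogenize _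
  · intro i m
    fin_cases i
    · simp only [Fin.zero_eta, Matrix.cons_val_zero, coeff_homogenize]
      split_ifs
      · exact (v.ge_zero_iff).1 (hgood.intF _)
      · simp
    · simp only [Fin.mk_one, Matrix.cons_val_one, Matrix.cons_val_zero, coeff_homogenize]
      split_ifs
      · exact (v.ge_zero_iff).1 (hgood.intG _)
      · simp
  · have e1 : res d ![S₀.F.homogenize d, S₀.G.homogenize d] = resultant S₀.F S₀.G d d := by
      have a1 := deh_homogenize S₀.hF
      have a2 := deh_homogenize S₀.hG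
      simp only [deh] at a1 a2
      simp only [res, Matrix.cons_val_zero, Matrix.cons_val_one]
      rw [a1, a2]
    rw [e1]
    exact (v.dv_eq_zero_iff S₀.hR).1 h3

end Pool.Agent.Helper55.RM
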