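import Mathlib
import Pool.Agent.Helper55.RM.Loc2

/-!
The global argument: multicolour Ramsey and the product formula.
-/

set_option autoImplicit false

open Polynomial Finset Pool.Agent.Helper33 Pool.Agent.Helper55.RD

namespace Pool.Agent.Helper55.RM

/-- multicolour Ramsey bounds -/
def mram (n : ℕ) : ℕ → ℕ
  | 0 => 2
  | s + 1 => ram n (mram n s)

theorem multi_ramsey {ι γ : Type*} [DecidableEq ι] [DecidableEq γ] (n : ℕ) (P : γ → ι → ι → Prop)
    (hsym : ∀ c i j, P c i j → P c j i) (Γ : Finset γ) :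
    ∀ T : Finset ι, mram n Γ.card ≤ T.card → (∀ i ∈ T, ∀ j ∈ T, i ≠ j → ∃ c ∈ Γ, P c i j) →
      ∃ c ∈ Γ, ∃ A ⊆ T, A.card = n ∧ ∀ i ∈ A, ∀ j ∈ A, i ≠ j → P c i j := by
  induction Γ using Finset.induction_on with
  | empty =>
    intro T hT h
    rw [card_empty, mram] at hT
    obtain ⟨i, hi, j, hj, hij⟩ := one_lt_card.1 (show 1 < T.card by omega)
    obtain ⟨c, hc, -⟩ := h i hi j hj hij
    simp at hc
  | insert c Γ hc ih =>
    intro T hT h
    rw [card_insert_of_notMem hc, mram] at hT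
    rcases ramsey (P c) (hsym c) n (mram n Γ.card) T hT with ⟨A, hA, hAc, hAP⟩ | ⟨B, hB, hBc, hBP⟩
    · exact ⟨c, mem_insert_self _ _, A, hA, hAc, hAP⟩
    · obtain ⟨c', hc', A, hA, hAc, hAP⟩ := ih B hBc.ge (by
        intro i hi j hj hij
        obtain ⟨c', hc', h'⟩ := h i (hB hi) j (hB hj) hij
        rcases mem_insert.1 hc' with rfl | hc'
        · exact absurd h' (hBP i hi j hj hij)
        · exact ⟨c', hc', h'⟩)
      exact ⟨c', mem_insert_of_mem hc', A, hA.trans hB, hAc, hAP⟩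

section

variable {k L : Type} [Field k] [Field L] [Algebra k L]

theorem isFunctionField_of (hfg : (⊤ : IntermediateField k L).FG)
    (htr : ∃ x : L, Transcendental k x ∧ Algebra.IsAlgebraic (IntermediateField.adjoin k {x}) L) :
    Pool.Agent.Helper16.IsFunctionField k L := by
  obtain ⟨x, hx, halg⟩ := htr
  refine ⟨IntermediateField.fg_top_iff.1 hfg, ?_⟩
  have h1 : AlgebraicIndependent k (fun _ : Unit => x) :=
    algebraicIndependent_unique_type_iff.2 hx
  have h2 : IsTranscendenceBasis k (fun _ : Unit => x) := by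
    rw [h1.isTranscendenceBasis_iff_isAlgebraic]
    have : Set.range (fun _ : Unit => x) = {x} := by simp
    rw [this]
    rw [← IntermediateField.isAlgebraic_adjoin_iff_top]
    exact halg
  have h3 := h2.lift_cardinalMk_eq_trdeg
  simpa using h3.symm

/-- the product formula for a nonzero element -/
lemma sum_ord (hN : Pool.Agent.Helper16.IsFunctionField k L) (f : L) :
    ∃ (S : Finset (Place k L)) (δ : Place k L → ℤ), (∀ v, 0 < δ v) ∧
      (∀ v, v ∉ S → v.dv.o f = 0) ∧ ∑ v ∈ S, v.dv.o f * δ v = 0 := by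
  classical
  obtain ⟨S, h1, h2⟩ := hN.product_formula f
  refine ⟨S.image Place.ofP, fun v => v.toP.deg, fun v => ?_, fun v hv => ?_, ?_⟩
  · change (0 : ℤ) < (v.toP.deg : ℤ)
    exact_mod_cast v.toP.deg_pos hN
  · by_contra h
    exact hv (mem_image.2 ⟨v.toP, (h1 _).2 h, rfl⟩)
  · rw [sum_image]
    · exact h2
    · intro a _ b _ hab
      exact congrArg Place.toP hab

/-- if the orders are nonnegative everywhere, they are all zero -/
lemma ord_eq_zero_of_nonneg (hN : Pool.Agent.Helper16.IsFunctionField k L) (f : L)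
    (h : ∀ v : Place k L, 0 ≤ v.dv.o f) (v : Place k L) : v.dv.o f = 0 := by
  obtain ⟨S, δ, hδ, h1, h2⟩ := sum_ord hN f
  by_cases hv : v ∈ S
  · have h3 := (sum_eq_zero_iff_of_nonneg (fun v _ => mul_nonneg (h v) (hδ v).le)).1 h2 v hv
    exact (mul_eq_zero.1 h3).resolve_right (hδ v).ne'
  · exact h1 v hv

/-- an element without zeros and poles is algebraic over the constants -/
lemma isAlgebraic_of_ord (hN : Pool.Agent.Helper16.IsFunctionField k L) {f : L} (hf : f ≠ 0)
    (h : ∀ v : Place k L, v.dv.o f = 0) : IsAlgebraic k f := by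
  by_contra hcon
  obtain ⟨S, h1, h2, h3⟩ := hN.zeros f hcon
  have h4 : S.Nonempty := by
    by_contra h5
    rw [not_nonempty_iff_eq_empty] at h5
    rw [h5, sum_empty] at h2
    omega
  obtain ⟨v, hv⟩ := h4
  have h5 := (h1 v).1 hv
  rw [← v.ord_pos_iff hf] at h5
  have h6 := h (Place.ofP v)
  have h7 : (Place.ofP v).dv.o f = v.ord f := rfl
  omega

/-- all local orders of the pairings vanish, if there are enough points -/
theorem all_zero (hN : Pool.Agent.Helper16.IsFunctionField k L) [Infinite L] {ι : Type} [Finite ι]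
    {d : ℕ} (hd : 2 ≤ d)
    {Φ : Fin 2 → MvPolynomial (Fin 2) L} (hΦ : ∀ i, (Φ i).IsHomogeneous d) (S : ASys L d ι)
    (hF : S.F = deh (Φ 0)) (hG : S.G = deh (Φ 1)) (s : ℕ) (T : Finset ι)
    (hT : ∀ s' ≤ s, mram (N₀ d) s' ≤ T.card)
    (hbad : ∃ Z : Finset (Place k L), Z.card ≤ s ∧ ∀ v ∉ Z, PotGood v d Φ)
    {i j : ι} (hij : i ≠ j) (v : Place k L) : v.dv.o (S.z i j) = 0 := by
  classical
  -- a minimal bad set
  have hex : ∃ n, ∃ Z : Finset (Place k L), Z.card = n ∧ n ≤ s ∧ ∀ v ∉ Z, PotGood v d Φ := by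
    obtain ⟨Z, h1, h2⟩ := hbad
    exact ⟨_, Z, rfl, h1, h2⟩
  obtain ⟨Z, hZc, hZs, hZ⟩ := Nat.find_spec hex
  have hmin : ∀ v ∈ Z, ¬ PotGood v d Φ := by
    intro v hv hp
    have hpos : 0 < Z.card := card_pos.2 ⟨v, hv⟩
    refine Nat.find_min hex (m := Nat.find hex - 1) (by omega) ⟨Z.erase v, ?_, by omega, ?_⟩
    · rw [card_erase_of_mem hv, hZc]
    · intro w hw
      by_cases hwv : w = v
      · rw [hwv]; exact hp
      · exact hZ w fun h => hw (mem_erase.2 ⟨hwv, h⟩)
  have hnn : ∀ i j, i ≠ j → ∀ v ∉ Z, 0 ≤ v.dv.o (S.z i j) := fun i j hij v hv =>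
    z_nonneg_of_potGood hd hΦ S hF hG v (hZ v hv) hij
  have hsym : ∀ (v : Place k L) (i j : ι), (i = j ∨ v.dv.o (S.z i j) ≤ 0) →
      (j = i ∨ v.dv.o (S.z j i) ≤ 0) := by
    intro v i j h
    by_cases hij : i = j
    · exact Or.inl hij.symm
    right
    have h1 := h.resolve_left hij
    have h2 := S.o_z hd v.dv hij
    have h3 := S.o_z hd v.dv (Ne.symm hij)
    rw [Sys.g_comm, ← h2] at h3
    have h4 : v.dv.o (S.z j i) = v.dv.o (S.z i j) := by exact_mod_cast h3
    rw [h4]; exact h1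
  have hZe : Z = ∅ := by
    by_contra hZne
    have hZne' := nonempty_iff_ne_empty.2 hZne
    obtain ⟨v, hv, A, hA, hAc, hAP⟩ := multi_ramsey (N₀ d)
      (fun (v : Place k L) i j => i = j ∨ v.dv.o (S.z i j) ≤ 0) hsym Z T
      (by rw [hZc]; exact hT _ hZs) (by
        intro i hi j hj hij
        by_contra hcon
        push Not at hcon
        have hpos : ∀ v ∈ Z, 0 < v.dv.o (S.z i j) := fun v hv => (hcon v hv).2
        have hnn' : ∀ v : Place k L, 0 ≤ v.dv.o (S.z i j) := by
          intro v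
          by_cases hv : v ∈ Z
          · exact (hpos v hv).le
          · exact hnn i j hij v hv
        obtain ⟨v, hv⟩ := hZne'
        have h1 := hpos v hv
        have h2 := ord_eq_zero_of_nonneg hN _ hnn' v
        omega)
    refine hmin v hv (potGood_of_clique hd hΦ S hF hG v A hAc.ge fun i hi j hj hij => ?_)
    exact (hAP i hi j hj hij).resolve_left hij
  refine ord_eq_zero_of_nonneg hN _ (fun v => hnn i j hij v ?_) v
  rw [hZe]
  exact notMem_empty v

end

end Pool.Agent.Helper55.RM
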