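import Mathlib
import Pool.Agent.Helper55.RM.Glob

/-!
The isotrivial case: if all cross-ratios of many preperiodic points are constant then the map is
isotrivial.
-/

set_option autoImplicit false

open Polynomial Finset Pool.Agent.Helper33 Pool.Agent.Helper55.RD

namespace Pool.Agent.Helper55.RM

section core

variable {k₁ L : Type} [Field k₁] [Field L] [Algebra k₁ L]

/-- coefficientwise application of a functional -/
noncomputable def app (π : L →ₗ[k₁] k₁) (d : ℕ) (f : L[X]) : k₁[X] :=
  ∑ i ∈ range (d + 1), monomial i (π (f.coeff i))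

lemma coeff_app (π : L →ₗ[k₁] k₁) {d : ℕ} {f : L[X]} (hf : f.natDegree ≤ d) (n : ℕ) :
    (app π d f).coeff n = π (f.coeff n) := by
  rw [app, finsetSum_coeff]
  simp only [coeff_monomial]
  rw [sum_ite_eq' (range (d + 1)) n fun i => π (f.coeff i)]
  split_ifs with h
  · rfl
  · rw [coeff_eq_zero_of_natDegree_lt, map_zero]
    rw [mem_range] at h
    omega

lemma natDegree_app (π : L →ₗ[k₁] k₁) {d : ℕ} (f : L[X]) : (app π d f).natDegree ≤ d := by
  refine natDegree_sum_le_of_forall_le _ _ fun i hi => ?_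
  refine (natDegree_monomial_le _).trans ?_
  rw [mem_range] at hi
  omega

lemma eval_app (π : L →ₗ[k₁] k₁) {d : ℕ} {f : L[X]} (hf : f.natDegree ≤ d) (t : k₁) :
    (app π d f).eval t = π (f.eval (algebraMap k₁ L t)) := by
  rw [eval_eq_sum_range' (Nat.lt_succ_of_le (natDegree_app π f)),
    eval_eq_sum_range' (Nat.lt_succ_of_le hf), map_sum]
  refine sum_congr rfl fun i _ => ?_
  rw [coeff_app π hf, ← map_pow, mul_comm (f.coeff i), ← Algebra.smul_def, map_smul, smul_eq_mul,
    mul_comm]

lemma natDegree_eq_of_resultant_ne_zero {f g : L[X]} {d : ℕ} (hf : f.natDegree ≤ d)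
    (hg : g.natDegree ≤ d) (hR : resultant f g d d ≠ 0) : f.natDegree = d ∨ g.natDegree = d := by
  by_contra hcon
  rw [not_or] at hcon
  exact hR (resultant_eq_zero_of_lt_lt _ _ _ _ (lt_of_le_of_ne hf hcon.1)
    (lt_of_le_of_ne hg hcon.2))

lemma isCoprime_of_resultant_ne_zero {f g : L[X]} {d : ℕ} (hd : 1 ≤ d) (hf : f.natDegree ≤ d)
    (hg : g.natDegree ≤ d) (hR : resultant f g d d ≠ 0) : IsCoprime f g := by
  obtain ⟨p, q, -, -, h⟩ := exists_mul_add_mul_eq_C_resultant f g hf hg (Or.inl (by omega))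
  refine ⟨C (resultant f g d d)⁻¹ * p, C (resultant f g d d)⁻¹ * q, ?_⟩
  calc C (resultant f g d d)⁻¹ * p * f + C (resultant f g d d)⁻¹ * q * g
      = C (resultant f g d d)⁻¹ * (f * p + g * q) := by ring
    _ = 1 := by rw [h, ← C_mul, inv_mul_cancel₀ hR, C_1]

theorem iso_core {d : ℕ} (hd : 1 ≤ d) {f g : L[X]} (hf : f.natDegree ≤ d) (hg : g.natDegree ≤ d)
    (hR : resultant f g d d ≠ 0) (T : Finset k₁) (hT : d + d + 1 ≤ T.card)
    (h : ∀ t ∈ T, ∃ (c : L) (p q : k₁), f.eval (algebraMap k₁ L t) = c * algebraMap k₁ L p ∧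
      g.eval (algebraMap k₁ L t) = c * algebraMap k₁ L q) :
    ∃ (l : L) (f' g' : k₁[X]), l ≠ 0 ∧ f'.natDegree ≤ d ∧ g'.natDegree ≤ d ∧
      f = C l * f'.map (algebraMap k₁ L) ∧ g = C l * g'.map (algebraMap k₁ L) := by
  classical
  have hcop := isCoprime_of_resultant_ne_zero hd hf hg hR
  have hdeg := natDegree_eq_of_resultant_ne_zero hf hg hR
  have hinj := (algebraMap k₁ L).injective
  -- a nonzero coefficient
  obtain ⟨u, hu, n, hn⟩ : ∃ u : L, u ≠ 0 ∧ ∃ n, f.coeff n = u ∨ g.coeff n = u := by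
    rcases hdeg with h1 | h1
    · refine ⟨f.coeff d, ?_, d, Or.inl rfl⟩
      rw [← h1, coeff_natDegree, Ne, leadingCoeff_eq_zero]
      rintro rfl
      simp at h1; omega
    · refine ⟨g.coeff d, ?_, d, Or.inr rfl⟩
      rw [← h1, coeff_natDegree, Ne, leadingCoeff_eq_zero]
      rintro rfl
      simp at h1; omega
  obtain ⟨π₀, hπ₀⟩ := LinearMap.exists_leftInverse_of_injective (Algebra.linearMap k₁ L)
    (LinearMap.ker_eq_bot.2 hinj)
  have hπ₀1 : π₀ 1 = 1 := by
    have := LinearMap.congr_fun hπ₀ 1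
    simpa using this
  set π : L →ₗ[k₁] k₁ := π₀ ∘ₗ LinearMap.mulLeft k₁ u⁻¹ with hπ
  have hπu : π u = 1 := by
    rw [hπ, LinearMap.comp_apply, LinearMap.mulLeft_apply, inv_mul_cancel₀ hu, hπ₀1]
  set f' := app π d f with hf'
  set g' := app π d g with hg'
  have hne : ¬ (f' = 0 ∧ g' = 0) := by
    rintro ⟨h1, h2⟩
    rcases hn with hn | hn
    · have := coeff_app π hf n
      rw [← hf', h1, hn, hπu] at this
      simp at this
    · have := coeff_app π hg n
      rw [← hg', h2, hn, hπu] at this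
      simp at this
  have hf'd : f'.natDegree ≤ d := natDegree_app π f
  have hg'd : g'.natDegree ≤ d := natDegree_app π g
  have hker : ∀ (a : k₁) (x : L), π (algebraMap k₁ L a * x) = a * π x := by
    intro a x
    rw [← Algebra.smul_def, map_smul, smul_eq_mul]
  have hmap : ∀ (P : k₁[X]) (t : k₁), (P.map (algebraMap k₁ L)).eval (algebraMap k₁ L t) =
      algebraMap k₁ L (P.eval t) := fun P t => by
    rw [eval_map, eval₂_at_apply]
  have hzero : f * g'.map (algebraMap k₁ L) - g * f'.map (algebraMap k₁ L) = 0 := by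
    refine eq_zero_of_natDegree_lt_card_of_eval_eq_zero' _ (T.image (algebraMap k₁ L)) ?_ ?_
    · intro x hx
      obtain ⟨t, ht, rfl⟩ := mem_image.1 hx
      obtain ⟨c, p, q, h1, h2⟩ := h t ht
      have h3 : q * f'.eval t = p * g'.eval t := by
        rw [hf', hg', eval_app π hf, eval_app π hg, ← hker, ← hker, h1, h2]
        congr 1
        ring
      rw [eval_sub, eval_mul, eval_mul, hmap, hmap, h1, h2]
      have h4 : algebraMap k₁ L q * algebraMap k₁ L (f'.eval t) =
          algebraMap k₁ L p * algebraMap k₁ L (g'.eval t) := by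
        rw [← map_mul, ← map_mul, h3]
      linear_combination (-c) * h4
    · rw [card_image_of_injective _ hinj]
      have h1 : (f * g'.map (algebraMap k₁ L) - g * f'.map (algebraMap k₁ L)).natDegree ≤ d + d := by
        refine (natDegree_sub_le _ _).trans (max_le ?_ ?_)
        · exact natDegree_mul_le.trans (add_le_add hf (natDegree_map_le.trans hg'd))
        · exact natDegree_mul_le.trans (add_le_add hg (natDegree_map_le.trans hf'd))
      omega
  have heq : f * g'.map (algebraMap k₁ L) = g * f'.map (algebraMap k₁ L) := sub_eq_zero.1 hzero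
  have hf0 : f ≠ 0 := by
    rintro rfl
    rw [isCoprime_zero_left] at hcop
    have := natDegree_eq_zero_of_isUnit hcop
    rw [natDegree_zero, this] at hdeg
    omega
  have hg0 : g ≠ 0 := by
    rintro rfl
    rw [isCoprime_zero_right] at hcop
    have := natDegree_eq_zero_of_isUnit hcop
    rw [natDegree_zero, this] at hdeg
    omega
  obtain ⟨q, hq⟩ : f ∣ f'.map (algebraMap k₁ L) := by
    refine hcop.dvd_of_dvd_mul_left ?_
    rw [← heq]
    exact dvd_mul_right _ _
  have hq' : g'.map (algebraMap k₁ L) = g * q := by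
    rw [hq] at heq
    have : f * g'.map (algebraMap k₁ L) = f * (g * q) := by rw [heq]; ring
    exact mul_left_cancel₀ hf0 this
  have hq0 : q ≠ 0 := by
    rintro rfl
    rw [mul_zero, Polynomial.map_eq_zero] at hq hq'
    exact hne ⟨hq, hq'⟩
  have hqdeg : q.natDegree = 0 := by
    rcases hdeg with h1 | h1
    · have h2 := natDegree_mul hf0 hq0
      rw [← hq, h1] at h2
      have h3 := (natDegree_map_le (f := algebraMap k₁ L) (p := f')).trans hf'd
      omega
    · have h2 := natDegree_mul hg0 hq0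
      rw [← hq', h1] at h2
      have h3 := (natDegree_map_le (f := algebraMap k₁ L) (p := g')).trans hg'd
      omega
  obtain ⟨c, rfl⟩ := natDegree_eq_zero.1 hqdeg
  have hc : c ≠ 0 := by
    rintro rfl
    exact hq0 C_0
  refine ⟨c⁻¹, f', g', inv_ne_zero hc, hf'd, hg'd, ?_, ?_⟩
  · rw [hq, mul_comm f, ← mul_assoc, ← C_mul, inv_mul_cancel₀ hc, C_1, one_mul]
  · rw [hq', mul_comm g, ← mul_assoc, ← C_mul, inv_mul_cancel₀ hc, C_1, one_mul]

end core

end Pool.Agent.Helper55.RM
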