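import Mathlib
import Pool.Agent.Helper55.RM.Iso

/-!
The isotrivial case: coordinates.
-/

set_option autoImplicit false

open Polynomial Finset Pool.Agent.Helper33 Pool.Agent.Helper55.RD

namespace Pool.Agent.Helper55.RM

lemma lift_tr {L : Type} [Field L] {Φ : Fin 2 → MvPolynomial (Fin 2) L} {d : ℕ}
    (hΦ : ∀ i, (Φ i).IsHomogeneous d) {N : M2 L} (hN : N.det ≠ 0) {κ : L} (hκ : κ ≠ 0)
    (x : Fin 2 → L) : lift Φ ((ofM2 N).mulVec x) = (κ * N.det)⁻¹ • (ofM2 N).mulVec
      ![hom d (trF d N κ (deh (Φ 0)) (deh (Φ 1))) (x 0) (x 1),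
        hom d (trG d N κ (deh (Φ 0)) (deh (Φ 1))) (x 0) (x 1)] := by
  rw [lift_zero hΦ]
  have e1 : ((ofM2 N).mulVec x) 0 = (N.app (x 0, x 1)).1 := by
    simp [ofM2, M2.app, Matrix.mulVec, dotProduct, Fin.sum_univ_two]
  have e2 : ((ofM2 N).mulVec x) 1 = (N.app (x 0, x 1)).2 := by
    simp [ofM2, M2.app, Matrix.mulVec, dotProduct, Fin.sum_univ_two]
  have e3 := hom_trF N κ (deh (Φ 0)) (deh (Φ 1)) (d := d) (x 0, x 1)
  have e4 := hom_trG N κ (deh (Φ 0)) (deh (Φ 1)) (d := d) (x 0, x 1)
  simp only at e3 e4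
  rw [e1, e2]
  have hd0 : N.det = N.a * N.e - N.b * N.c := rfl
  have hne : κ * N.det ≠ 0 := mul_ne_zero hκ hN
  funext i
  fin_cases i
  · simp only [Fin.zero_eta, Matrix.cons_val_zero, Pi.smul_apply, smul_eq_mul, ofM2,
      Matrix.mulVec, dotProduct, Fin.sum_univ_two, Matrix.of_apply, Matrix.cons_val_one,
      Matrix.cons_val']
    rw [e3, e4, eq_inv_mul_iff_mul_eq₀ hne, hd0]
    ring
  · simp only [Fin.mk_one, Matrix.cons_val_zero, Pi.smul_apply, smul_eq_mul, ofM2,
      Matrix.mulVec, dotProduct, Fin.sum_univ_two, Matrix.of_apply, Matrix.cons_val_one,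
      Matrix.cons_val']
    rw [e3, e4, eq_inv_mul_iff_mul_eq₀ hne, hd0]
    ring

section map

variable {K K' : Type} [Field K] [Field K'] (f : K →+* K')

/-- base change -/
def mapM2 (N : M2 K) : M2 K' := ⟨f N.a, f N.b, f N.c, f N.e⟩

lemma map_pb (d : ℕ) (N : M2 K) (F : K[X]) : (pb d N F).map f = pb d (mapM2 f N) (F.map f) := by
  rw [pb, pb, map_hom]
  simp [mapM2]

lemma map_trF (d : ℕ) (N : M2 K) (κ : K) (F G : K[X]) :
    (trF d N κ F G).map f = trF d (mapM2 f N) (f κ) (F.map f) (G.map f) := by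
  rw [trF, trF, Polynomial.map_add, Polynomial.map_mul, Polynomial.map_mul, map_pb, map_pb]
  simp [mapM2]

lemma map_trG (d : ℕ) (N : M2 K) (κ : K) (F G : K[X]) :
    (trG d N κ F G).map f = trG d (mapM2 f N) (f κ) (F.map f) (G.map f) := by
  rw [trG, trG, Polynomial.map_add, Polynomial.map_mul, Polynomial.map_mul, map_pb, map_pb]
  simp [mapM2]

lemma det_mapM2 (N : M2 K) : (mapM2 f N).det = f N.det := by
  simp [mapM2, M2.det]

end map

section cross

variable {K : Type} [Field K] {d : ℕ} {ι : Type} [Finite ι] (S : ASys K d ι)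

lemma cross_pow {i j k l : ι} (hij : i ≠ j) (hkl : k ≠ l) (hik : i ≠ k) (hjl : j ≠ l) :
    S.z i j * S.z k l / (S.z i k * S.z j l) =
      (wedge (S.x i) (S.x j) * wedge (S.x k) (S.x l) /
        (wedge (S.x i) (S.x k) * wedge (S.x j) (S.x l))) ^ (S.E * (d * (d - 1))) := by
  have h1 := S.hx i j hij
  have h2 := S.hx k l hkl
  have h3 := S.hx i k hik
  have h4 := S.hx j l hjl
  have hb1 := S.b_ne_zero i
  have hb2 := S.b_ne_zero j
  have hb3 := S.b_ne_zero k
  have hb4 := S.b_ne_zero l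
  have hR := S.hR
  simp only [ASys.z, div_pow, mul_pow]
  field_simp

end cross

/-- If all the pairings are constants, the map is isotrivial. -/
theorem isotrivial_of_algebraic {k L : Type} [Field k] [Field L] [Algebra k L] {ι : Type}
    [Finite ι] {d : ℕ} (hd : 2 ≤ d) {Φ : Fin 2 → MvPolynomial (Fin 2) L}
    (hΦ : ∀ i, (Φ i).IsHomogeneous d) (S : ASys L d ι) (hF : S.F = deh (Φ 0))
    (hG : S.G = deh (Φ 1)) (T : Finset ι) (hT : d + d + 2 ≤ T.card)
    (hz : ∀ i j, i ≠ j → IsAlgebraic k (S.z i j)) : Isotrivial k d Φ := by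
  classical
  obtain ⟨a, -, b, -, c, -, hab, hac, hbc⟩ := two_lt_card.1 (show 2 < T.card by omega)
  set N : M2 L := ⟨wedge (S.x c) (S.x b) * (S.x a).1, wedge (S.x a) (S.x c) * (S.x b).1,
    wedge (S.x c) (S.x b) * (S.x a).2, wedge (S.x a) (S.x c) * (S.x b).2⟩ with hN
  have hdet : N.det = wedge (S.x c) (S.x b) * wedge (S.x a) (S.x c) * wedge (S.x a) (S.x b) := by
    simp only [hN, M2.det, wedge]
    ring
  have hcb := S.hx c b hbc.symm
  have hac' := S.hx a c hac
  have hab' := S.hx a b hab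
  have hdet0 : N.det ≠ 0 := by
    rw [hdet]
    exact mul_ne_zero (mul_ne_zero hcb hac') hab'
  -- the affine coordinates
  set t : ι → L := fun i => wedge (S.x i) (S.x b) * wedge (S.x a) (S.x c) /
    (wedge (S.x a) (S.x i) * wedge (S.x c) (S.x b)) with ht
  have happ : ∀ i, i ≠ a → ∃ l : L, l ≠ 0 ∧ N.app (t i, 1) = (l * (S.x i).1, l * (S.x i).2) := by
    intro i hia
    have hai := S.hx a i hia.symm
    refine ⟨wedge (S.x a) (S.x c) * wedge (S.x a) (S.x b) / wedge (S.x a) (S.x i),
      div_ne_zero (mul_ne_zero hac' hab') hai, ?_⟩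
    refine Prod.ext ?_ ?_
    · simp only [M2.app, hN, ht]
      field_simp
      simp only [wedge]
      ring
    · simp only [M2.app, hN, ht]
      field_simp
      simp only [wedge]
      ring
  have happa : N.app (1, 0) = (wedge (S.x c) (S.x b) * (S.x a).1,
      wedge (S.x c) (S.x b) * (S.x a).2) := by
    simp [M2.app, hN]
  have htalg : ∀ i, i ≠ a → IsAlgebraic k (t i) := by
    intro i hia
    by_cases hib : i = b
    · have : t i = 0 := by
        simp only [ht, hib, wedge_self, zero_mul, zero_div]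
      rw [this]
      exact isAlgebraic_zero
    have h1 : IsAlgebraic k (S.z i b * S.z a c / (S.z i a * S.z b c)) := by
      rw [div_eq_mul_inv]
      exact ((hz _ _ hib).mul (hz _ _ hac)).mul ((hz _ _ hia).mul (hz _ _ hbc)).inv
    rw [cross_pow S hib hac hia hbc] at h1
    have h2 : t i = wedge (S.x i) (S.x b) * wedge (S.x a) (S.x c) /
        (wedge (S.x i) (S.x a) * wedge (S.x b) (S.x c)) := by
      have e1 : wedge (S.x i) (S.x a) * wedge (S.x b) (S.x c) =
          wedge (S.x a) (S.x i) * wedge (S.x c) (S.x b) := by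
        simp only [wedge]; ring
      rw [e1]
    rw [← h2] at h1
    refine h1.of_pow ?_
    have := S.E_pos hd
    have h3 : 0 < d * (d - 1) := Nat.mul_pos (by omega) (by omega)
    exact Nat.mul_pos this h3
  have htinj : ∀ i j, i ≠ a → j ≠ a → t i = t j → i = j := by
    intro i j hia hja hij
    by_contra hne
    obtain ⟨l, hl, h1⟩ := happ i hia
    obtain ⟨m, hm, h2⟩ := happ j hja
    have h3 := N.wedge_app (t i, 1) (t j, 1)
    rw [h1, h2] at h3
    have h4 : wedge (t i, (1 : L)) (t j, 1) = 0 := by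
      rw [hij, wedge_self]
    have h5 : wedge (l * (S.x i).1, l * (S.x i).2) (m * (S.x j).1, m * (S.x j).2) =
        l * m * wedge (S.x i) (S.x j) := by
      simp only [wedge]; ring
    rw [h4, mul_zero, h5] at h3
    exact mul_ne_zero (mul_ne_zero hl hm) (S.hx i j hne) h3
  -- the field of constants
  set k₁ := algebraicClosure k L with hk₁
  have hτ : ∀ i, i ≠ a → ∃ τ : k₁, algebraMap k₁ L τ = t i := fun i hi =>
    ⟨⟨t i, mem_algebraicClosure_iff.2 (htalg i hi)⟩, rfl⟩
  choose! τ hτ using hτ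
  -- coordinates of all points
  have hy : ∀ i, ∃ (p q : k₁) (l : L), l ≠ 0 ∧
      N.app (algebraMap k₁ L p, algebraMap k₁ L q) = (l * (S.x i).1, l * (S.x i).2) := by
    intro i
    by_cases hia : i = a
    · refine ⟨1, 0, _, hcb, ?_⟩
      rw [map_one, map_zero, happa, hia]
    · obtain ⟨l, hl, h1⟩ := happ i hia
      refine ⟨τ i, 1, l, hl, ?_⟩
      rw [map_one, hτ i hia, h1]
  have hadj : ∀ i, ∃ (p q : k₁) (m : L), N.adj (S.x i) = (m * algebraMap k₁ L p,
      m * algebraMap k₁ L q) := by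
    intro i
    obtain ⟨p, q, l, hl, h1⟩ := hy i
    have h2 := N.adj_app (algebraMap k₁ L p, algebraMap k₁ L q)
    rw [h1] at h2
    have h3 : N.adj (l * (S.x i).1, l * (S.x i).2) =
        (l * (N.adj (S.x i)).1, l * (N.adj (S.x i)).2) := by
      simp only [M2.adj]
      refine Prod.ext ?_ ?_ <;> (simp only; ring)
    rw [h3] at h2
    have h4 := congrArg Prod.fst h2
    have h5 := congrArg Prod.snd h2
    simp only at h4 h5
    refine ⟨p, q, l⁻¹ * N.det, Prod.ext ?_ ?_⟩
    · simp only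
      rw [mul_assoc, ← h4, inv_mul_cancel_left₀ hl]
    · simp only
      rw [mul_assoc, ← h5, inv_mul_cancel_left₀ hl]
  -- the conjugate system
  have hRes : resultant (trF d N 1 (deh (Φ 0)) (deh (Φ 1))) (trG d N 1 (deh (Φ 0)) (deh (Φ 1))) d d
      ≠ 0 := by
    rw [resultant_tr N 1 (natDegree_deh (hΦ 0)) (natDegree_deh (hΦ 1)), ← hF, ← hG]
    exact mul_ne_zero (pow_ne_zero _ (mul_ne_zero (pow_ne_zero _ one_ne_zero) hdet0))
      (mul_ne_zero (pow_ne_zero _ hdet0) S.hR)
  obtain ⟨l, f', g', hl, hf', hg', hf, hg⟩ := iso_core (k₁ := k₁) (d := d) (by omega)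
    (natDegree_trF N 1) (natDegree_trG N 1) hRes ((T.erase a).image τ) (by
      rw [card_image_of_injOn]
      · have := pred_card_le_card_erase (s := T) (a := a)
        omega
      · intro i hi j hj hij
        have hi' : i ≠ a := ne_of_mem_erase hi
        have hj' : j ≠ a := ne_of_mem_erase hj
        refine htinj i j hi' hj' ?_
        rw [← hτ i hi', ← hτ j hj', hij]) (by
      intro s hs
      obtain ⟨i, hi, rfl⟩ := mem_image.1 hs
      have hia : i ≠ a := ne_of_mem_erase hi
      obtain ⟨m, hm, h1⟩ := happ i hia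
      obtain ⟨p, q, n, h2⟩ := hadj (S.φ i)
      have h3 := congrArg Prod.fst h2
      have h4 := congrArg Prod.snd h2
      simp only [M2.adj] at h3 h4
      have e1 : hom d (deh (Φ 0)) (N.app (t i, 1)).1 (N.app (t i, 1)).2 =
          m ^ d * (S.c i * (S.x (S.φ i)).1) := by
        rw [h1, hom_smul_smul, ← hF, S.hΦF]
      have e2 : hom d (deh (Φ 1)) (N.app (t i, 1)).1 (N.app (t i, 1)).2 =
          m ^ d * (S.c i * (S.x (S.φ i)).2) := by
        rw [h1, hom_smul_smul, ← hG, S.hΦG]
      refine ⟨m ^ d * S.c i * n, p, q, ?_, ?_⟩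
      · rw [← hom_eval (natDegree_trF N 1), hτ i hia]
        have := hom_trF N 1 (deh (Φ 0)) (deh (Φ 1)) (d := d) (t i, 1)
        simp only at this
        rw [this, e1, e2]
        linear_combination (m ^ d * S.c i) * h3
      · rw [← hom_eval (natDegree_trG N 1), hτ i hia]
        have := hom_trG N 1 (deh (Φ 0)) (deh (Φ 1)) (d := d) (t i, 1)
        simp only at this
        rw [this, e1, e2]
        linear_combination (m ^ d * S.c i) * h4)
  -- over the algebraic closure
  set ψ := algebraMap L (AlgebraicClosure L) with hψ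
  have hext : ∀ i, (ext (AlgebraicClosure L) Φ i).IsHomogeneous d := fun i => (hΦ i).map _
  have hN' : (mapM2 ψ N).det ≠ 0 := by
    rw [det_mapM2]; simpa using hdet0
  refine ⟨ofM2 (mapM2 ψ N), ![((f'.map (algebraMap k₁ L)).map ψ).homogenize d,
    ((g'.map (algebraMap k₁ L)).map ψ).homogenize d], ⟨?_, (mapM2 ψ N).det⁻¹ * ψ l,
    mul_ne_zero (inv_ne_zero hN') (by simpa using hl), fun x => ?_⟩, ?_, ?_⟩
  · have : (ofM2 (mapM2 ψ N)).det = (mapM2 ψ N).det := by
      rw [ofM2, Matrix.det_fin_two_of, M2.det]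
    rw [this]; exact hN'
  · have h1 := lift_tr hext hN' one_ne_zero x
    have e0 : deh (ext (AlgebraicClosure L) Φ 0) = (deh (Φ 0)).map ψ := deh_map _ _
    have e1 : deh (ext (AlgebraicClosure L) Φ 1) = (deh (Φ 1)).map ψ := deh_map _ _
    have e2 := map_trF ψ d N 1 (deh (Φ 0)) (deh (Φ 1))
    have e3 := map_trG ψ d N 1 (deh (Φ 0)) (deh (Φ 1))
    rw [map_one] at e2 e3
    rw [e0, e1, ← e2, ← e3, hf, hg, Polynomial.map_mul, Polynomial.map_mul, map_C, hom_C_mul,
      hom_C_mul] at h1
    rw [h1, one_mul, mul_smul]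
    congr 1
    have e4 : lift ![((f'.map (algebraMap k₁ L)).map ψ).homogenize d,
        ((g'.map (algebraMap k₁ L)).map ψ).homogenize d] x =
        ![hom d ((f'.map (algebraMap k₁ L)).map ψ) (x 0) (x 1),
          hom d ((g'.map (algebraMap k₁ L)).map ψ) (x 0) (x 1)] := by
      funext i
      fin_cases i <;> exact eval_homogenize' _ _ _
    rw [e4, ← Matrix.mulVec_smul]
    congr 1
    funext i
    fin_cases i <;> simp
  · intro i
    fin_cases i
    · exact isHomogeneous_homogenize _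
    · exact isHomogeneous_homogenize _
  · have halg : ∀ (P : k₁[X]) (n : ℕ), IsAlgebraic k (((P.map (algebraMap k₁ L)).map ψ).coeff n) := by
      intro P n
      rw [coeff_map, coeff_map]
      have h1 : IsAlgebraic k (algebraMap k₁ L (P.coeff n)) :=
        mem_algebraicClosure_iff.1 (P.coeff n).2
      exact h1.algebraMap
    intro i m
    fin_cases i
    · simp only [Fin.zero_eta, Matrix.cons_val_zero, coeff_homogenize]
      split_ifs
      · exact halg _ _
      · exact isAlgebraic_zero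
    · simp only [Fin.mk_one, Matrix.cons_val_one, Matrix.cons_val_zero, coeff_homogenize]
      split_ifs
      · exact halg _ _
      · exact isAlgebraic_zero

end Pool.Agent.Helper55.RM
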