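import Mathlib
import Pool.Agent.Helper55.RM.Iso2

/-!
From preperiodic points of a rational map to an algebraic system; the main theorem.
-/

set_option autoImplicit false

open Polynomial Finset Pool.Agent.Helper33 Pool.Agent.Helper55.RD

namespace Pool.Agent.Helper55.RM

section pack

variable {L : Type} [Field L] {d : ℕ} {Φ : Fin 2 → MvPolynomial (Fin 2) L}

lemma lift_smul (hΦ : ∀ i, (Φ i).IsHomogeneous d) (c : L) (x : Fin 2 → L) :
    lift Φ (c • x) = c ^ d • lift Φ x := by
  rw [lift_zero hΦ, lift_zero hΦ]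
  funext i
  fin_cases i <;> simp [hom_smul_smul]

lemma lift_ne_zero (h : IsRat d Φ) {x : Fin 2 → L} (hx : x ≠ 0) : lift Φ x ≠ 0 := by
  intro h0
  apply hx
  have h1 := h.2 (fun i => algebraMap L (AlgebraicClosure L) (x i)) (by
    funext i
    have h2 := congrFun h0 i
    have h3 := MvPolynomial.map_eval (algebraMap L (AlgebraicClosure L)) x (Φ i)
    change MvPolynomial.eval _ (MvPolynomial.map _ (Φ i)) = 0
    change MvPolynomial.eval x (Φ i) = 0 at h2
    rw [h2, map_zero] at h3
    exact h3.symm)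
  funext i
  have h2 := congrFun h1 i
  simpa using h2

/-- the map on the projective line -/
noncomputable def fmap (h : IsRat d Φ) (p : Projectivization L (Fin 2 → L)) :
    Projectivization L (Fin 2 → L) :=
  Projectivization.mk L (lift Φ p.rep) (lift_ne_zero h p.rep_nonzero)

lemma fmap_mk (h : IsRat d Φ) {v : Fin 2 → L} (hv : v ≠ 0) :
    fmap h (Projectivization.mk L v hv) = Projectivization.mk L (lift Φ v) (lift_ne_zero h hv) := by
  rw [fmap, Projectivization.mk_eq_mk_iff']
  obtain ⟨a, ha⟩ := Projectivization.exists_smul_eq_mk_rep L v hv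
  refine ⟨(a : L) ^ d, ?_⟩
  rw [← lift_smul h.1, ← ha]
  rfl

lemma iter_ne_zero (h : IsRat d Φ) (n : ℕ) {v : Fin 2 → L} (hv : v ≠ 0) : (lift Φ)^[n] v ≠ 0 := by
  induction n with
  | zero => exact hv
  | succ n ih =>
    rw [Function.iterate_succ_apply']
    exact lift_ne_zero h ih

lemma fmap_iter (h : IsRat d Φ) (n : ℕ) {v : Fin 2 → L} (hv : v ≠ 0) :
    (fmap h)^[n] (Projectivization.mk L v hv) =
      Projectivization.mk L ((lift Φ)^[n] v) (iter_ne_zero h n hv) := by
  induction n with
  | zero => rfl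
  | succ n ih =>
    rw [Function.iterate_succ_apply', ih, fmap_mk]
    congr 1
    rw [Function.iterate_succ_apply']

lemma fmap_of_mem (h : IsRat d Φ) {p : Projectivization L (Fin 2 → L)} (hp : p ∈ prePer Φ) :
    ∃ m n : ℕ, m < n ∧ (fmap h)^[n] p = (fmap h)^[m] p := by
  obtain ⟨m, n, hmn, c, hc, h1⟩ := hp
  refine ⟨m, n, hmn, ?_⟩
  rw [← p.mk_rep, fmap_iter, fmap_iter, Projectivization.mk_eq_mk_iff']
  refine ⟨c, ?_⟩
  rw [h1]

lemma mk_eq_of_wedge {p q : Projectivization L (Fin 2 → L)}
    (h : wedge (p.rep 0, p.rep 1) (q.rep 0, q.rep 1) = 0) : p = q := by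
  rw [← p.mk_rep, ← q.mk_rep, Projectivization.mk_eq_mk_iff']
  simp only [wedge] at h
  by_cases h0 : q.rep 0 = 0
  · have h1 : q.rep 1 ≠ 0 := by
      intro h1
      apply q.rep_nonzero
      funext i
      fin_cases i <;> assumption
    have h2 : p.rep 0 = 0 := by
      rw [h0, mul_zero, sub_zero] at h
      exact (mul_eq_zero.1 h).resolve_right h1
    refine ⟨p.rep 1 / q.rep 1, ?_⟩
    funext i
    fin_cases i
    · simp [h0, h2]
    · simp [div_mul_cancel₀ _ h1]
  · refine ⟨p.rep 0 / q.rep 0, ?_⟩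
    funext i
    fin_cases i
    · simp [div_mul_cancel₀ _ h0]
    · simp only [Fin.mk_one, Pi.smul_apply, smul_eq_mul]
      rw [div_mul_eq_mul_div, div_eq_iff h0]
      linear_combination h

/-- a finite invariant set containing given preperiodic points -/
lemma exists_invariant (h : IsRat d Φ) (T : Finset (Projectivization L (Fin 2 → L)))
    (hT : ∀ p ∈ T, p ∈ prePer Φ) :
    ∃ O : Finset (Projectivization L (Fin 2 → L)), T ⊆ O ∧ ∀ p ∈ O, fmap h p ∈ O := by
  classical
  have h1 : ∀ p ∈ T, ∃ m n : ℕ, m < n ∧ (fmap h)^[n] p = (fmap h)^[m] p := fun p hp =>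
    fmap_of_mem h (hT p hp)
  choose! m n hmn hiter using h1
  refine ⟨T.biUnion fun p => (range (n p)).image fun j => (fmap h)^[j] p, ?_, ?_⟩
  · intro p hp
    refine mem_biUnion.2 ⟨p, hp, mem_image.2 ⟨0, mem_range.2 ?_, rfl⟩⟩
    have := hmn p hp
    omega
  · intro q hq
    obtain ⟨p, hp, hq⟩ := mem_biUnion.1 hq
    obtain ⟨j, hj, rfl⟩ := mem_image.1 hq
    rw [mem_range] at hj
    refine mem_biUnion.2 ⟨p, hp, mem_image.2 ?_⟩
    by_cases hj' : j + 1 < n p
    · exact ⟨j + 1, mem_range.2 hj', Function.iterate_succ_apply' _ _ _⟩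
    · refine ⟨m p, mem_range.2 (hmn p hp), ?_⟩
      rw [← hiter p hp, show n p = j + 1 by omega, Function.iterate_succ_apply']

lemma resultant_ne_zero_of_isRat (h : IsRat d Φ) (hd : 1 ≤ d) :
    resultant (deh (Φ 0)) (deh (Φ 1)) d d ≠ 0 := by
  have hext : ∀ i, (ext (AlgebraicClosure L) Φ i).IsHomogeneous d := fun i => (h.1 i).map _
  have key : ∀ a b : AlgebraicClosure L, hom d (deh (Φ 0)) a b = 0 → hom d (deh (Φ 1)) a b = 0 →
      a = 0 ∧ b = 0 := by
    intro a b h0 h1
    have h2 := h.2 ![a, b] (by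
      funext i
      rw [lift]
      simp only [ext, MvPolynomial.eval_map]
      fin_cases i
      · rw [hom_deh (h.1 0)] at h0
        exact h0
      · rw [hom_deh (h.1 1)] at h1
        exact h1)
    exact ⟨congrFun h2 0, congrFun h2 1⟩
  refine resultant_ne_zero_of_isCoprime ?_ (natDegree_deh (h.1 0)) (natDegree_deh (h.1 1)) ?_ hd
  · rw [isCoprime_iff_aeval_ne_zero_of_isAlgClosed L (AlgebraicClosure L)]
    intro a
    by_contra hcon
    rw [not_or, not_not, not_not] at hcon
    have hval : ∀ P : L[X], P.natDegree ≤ d → hom d P a (1 : AlgebraicClosure L) = aeval a P := by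
      intro P hP
      rw [hom, Finset.Nat.sum_antidiagonal_eq_sum_range_succ_mk,
        aeval_eq_sum_range' (Nat.lt_succ_of_le hP)]
      refine sum_congr rfl fun i _ => ?_
      rw [one_pow, mul_one, Algebra.smul_def]
    have := key a 1 (by rw [hval _ (natDegree_deh (h.1 0))]; exact hcon.1)
      (by rw [hval _ (natDegree_deh (h.1 1))]; exact hcon.2)
    exact one_ne_zero this.2
  · by_contra hcon
    rw [not_or] at hcon
    have hval : ∀ P : L[X], P.natDegree < d → hom d P (1 : AlgebraicClosure L) 0 = 0 := by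
      intro P hP
      rw [hom]
      refine sum_eq_zero fun kl hkl => ?_
      rw [HasAntidiagonal.mem_antidiagonal] at hkl
      by_cases h2 : kl.2 = 0
      · rw [coeff_eq_zero_of_natDegree_lt (by omega)]
        simp
      · rw [zero_pow h2, mul_zero]
    have := key 1 0 (hval _ (lt_of_le_of_ne (natDegree_deh (h.1 0)) hcon.1))
      (hval _ (lt_of_le_of_ne (natDegree_deh (h.1 1)) hcon.2))
    exact one_ne_zero this.1

/-- the algebraic system of a finite invariant set -/
theorem exists_ASys (h : IsRat d Φ) (hd : 1 ≤ d) (O : Finset (Projectivization L (Fin 2 → L)))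
    (hO : ∀ p ∈ O, fmap h p ∈ O) : ∃ S : ASys L d O, S.F = deh (Φ 0) ∧ S.G = deh (Φ 1) := by
  have hc : ∀ p : O, ∃ c : L, c ≠ 0 ∧ lift Φ p.1.rep = c • (fmap h p.1).rep := by
    intro p
    obtain ⟨a, ha⟩ := Projectivization.exists_smul_eq_mk_rep L (lift Φ p.1.rep)
      (lift_ne_zero h p.1.rep_nonzero)
    refine ⟨((a⁻¹ : Lˣ) : L), Units.ne_zero _, ?_⟩
    rw [fmap, ← ha]
    rw [← Units.smul_def, inv_smul_smul]
  choose c hc0 hc using hc
  refine ⟨
    { F := deh (Φ 0)
      G := deh (Φ 1)
      hF := natDegree_deh (h.1 0)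
      hG := natDegree_deh (h.1 1)
      hR := resultant_ne_zero_of_isRat h hd
      x := fun p => (p.1.rep 0, p.1.rep 1)
      hx := fun p q hpq hw => hpq (Subtype.ext (mk_eq_of_wedge hw))
      hx0 := fun p hp => p.1.rep_nonzero (by
        funext i
        fin_cases i
        · exact congrArg Prod.fst hp
        · exact congrArg Prod.snd hp)
      φ := fun p => ⟨fmap h p.1, hO p.1 p.2⟩
      c := c
      hc := hc0
      hΦF := fun p => by
        have h1 := congrFun (hc p) 0
        rw [lift_zero h.1] at h1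
        exact h1
      hΦG := fun p => by
        have h1 := congrFun (hc p) 1
        rw [lift_zero h.1] at h1
        exact h1 }, rfl, rfl⟩

end pack

/-- the bound -/
def bound (d s : ℕ) : ℕ := ∑ s' ∈ range (s + 1), mram (N₀ d) s' + (d + d + 2)

/-- **The main theorem.** -/
theorem main (d s : ℕ) (hd : 2 ≤ d) (k L : Type) [Field k] [Field L] [Algebra k L]
    (hfg : (⊤ : IntermediateField k L).FG)
    (htr : ∃ x : L, Transcendental k x ∧ Algebra.IsAlgebraic (IntermediateField.adjoin k {x}) L)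
    (Φ : Fin 2 → MvPolynomial (Fin 2) L) (hΦ : IsRat d Φ) (hiso : ¬ Isotrivial k d Φ)
    (hbad : ∃ Z : Finset (Place k L), Z.card ≤ s ∧ ∀ v ∉ Z, PotGood v d Φ) :
    (prePer Φ).encard ≤ bound d s := by
  classical
  by_contra hcon
  rw [not_le] at hcon
  have hN := isFunctionField_of hfg htr
  have : Infinite L := by
    obtain ⟨x, hx, -⟩ := htr
    exact Infinite.of_injective (aeval x : k[X] → L) (transcendental_iff_injective.1 hx)
  obtain ⟨T, hT, hTc⟩ := Set.exists_subset_encard_eq hcon.le
  have hTfin : T.Finite := Set.finite_of_encard_eq_coe hTc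
  obtain ⟨O, hO1, hO2⟩ := exists_invariant hΦ hTfin.toFinset (fun p hp =>
    hT ((Set.Finite.mem_toFinset _).1 hp))
  obtain ⟨S, hF, hG⟩ := exists_ASys hΦ (by omega) O hO2
  have hcard : bound d s ≤ (univ : Finset O).card := by
    rw [card_univ, Fintype.card_coe]
    refine le_trans ?_ (card_le_card hO1)
    rw [hTfin.encard_eq_coe_toFinset_card] at hTc
    exact_mod_cast hTc.ge
  refine hiso (isotrivial_of_algebraic hd hΦ.1 S hF hG univ ?_ ?_)
  · refine le_trans ?_ hcard
    unfold bound
    omega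
  · intro i j hij
    refine isAlgebraic_of_ord hN (S.z_ne_zero hij) fun v => ?_
    refine all_zero hN hd hΦ.1 S hF hG s univ ?_ hbad hij v
    intro s' hs'
    refine le_trans ?_ hcard
    unfold bound
    have : mram (N₀ d) s' ≤ ∑ s' ∈ range (s + 1), mram (N₀ d) s' :=
      single_le_sum (f := fun s' => mram (N₀ d) s') (fun _ _ => Nat.zero_le _)
        (mem_range.2 (by omega))
    omega

end Pool.Agent.Helper55.RM
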